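import Pool.Agent.N625.PT.X8
import Pool.Agent.Y877.SxI

/-!
# Representations `n = k + m` of EVERY large `n`, with `p_k` and `p_{p_m}` shifted to primes by random multiples of a small
primorial, for the random integers given by digits

Nothing is used besides Mathlib in the statement: `∑ v ∈ range (b ^ d), ∑ v' ∈ range (b ^ d), (if P v v' then μ v * μ' v' else 0)`
is the probability that the independent random integers `v`, `v'` with the distributions `μ`, `μ'` have the property `P`.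
-/

set_option autoImplicit false

open Finset

namespace Pool.Agent.Results.MP_04e9b2_nt.ExchangeableShiftPairs

/-- The probability, for the distribution `μ` on the words of `k` digits (the integers `v < b ^ k`), that the word begins with
the `i` digits of `u < b ^ i`. -/
noncomputable def begins (b k : ℕ) (μ : ℕ → ℝ) (i u : ℕ) : ℝ := ∑ w ∈ range (b ^ (k - i)), μ (u * b ^ (k - i) + w)

/-- `p` is a probability on the words of `k` digits in base `b`, read as integers `v < b ^ k`. There is another probability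
`μ` with `p ≤ k ^ T μ` such that after every beginning `u` two different blocks `a`, `a'` of `L` digits can be exchanged:
`p (u a w) = r p (u a' w)` for all endings `w`, with a factor `r` between `η` and `1 / η` which does not depend on `w`; and
given the beginning `u`, each of the two blocks comes next with a probability of at least `η` in the distribution `μ`.
(For `T = 0` one has `μ = p`. For the uniform distribution on a set of words `r` is `1`.) -/
structure Exchangeable (b L : ℕ) (η : ℝ) (T k : ℕ) (p : ℕ → ℝ) : Prop where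
  nonneg : ∀ v, 0 ≤ p v
  sum : ∑ v ∈ range (b ^ k), p v = 1
  dominated : ∃ μ : ℕ → ℝ, (∀ v, 0 ≤ μ v) ∧ ∑ v ∈ range (b ^ k), μ v = 1 ∧ (∀ v < b ^ k, p v ≤ (k : ℝ) ^ T * μ v) ∧
    ∀ i u : ℕ, i + L ≤ k → u < b ^ i → ∃ (a a' : ℕ) (r : ℝ), a < a' ∧ a' < b ^ L ∧ η ≤ r ∧ η * r ≤ 1 ∧
      (∀ w < b ^ (k - (i + L)), p ((b ^ L * u + a) * b ^ (k - (i + L)) + w) = r * p ((b ^ L * u + a') * b ^ (k - (i + L)) + w)) ∧
      η * begins b k μ i u ≤ begins b k μ (i + L) (b ^ L * u + a) ∧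
      η * begins b k μ i u ≤ begins b k μ (i + L) (b ^ L * u + a')

/-- the `k`-th prime, `p 1 = 2` -/
noncomputable def p (k : ℕ) : ℕ := Nat.nth Nat.Prime (k - 1)

/-- the product of `1 - 1/q` over the primes `q ≤ y` -/
noncomputable def V (y : ℕ) : ℝ := ∏ q ∈ (Icc 1 y).filter Nat.Prime, (1 - 1 / (q : ℝ))

/-- the multiple of the product of the primes `≤ y` given by the integers `h` and `c + κ v` -/
def Nv (y h : ℕ) (c κ : ℤ) (v : ℕ) : ℤ := ((primorial y * h : ℕ) : ℤ) * (c + κ * v)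

/-- the `k ∈ K` such that `p_k + h` and `p_{p_m} + h'` are prime, where `m = n - k` -/
noncomputable def Good2 (n : ℕ) (K : Finset ℕ) (h h' : ℕ) : Finset ℕ :=
  K.filter (fun k => (p k + h).Prime ∧ (p (p (n - k)) + h').Prime)

lemma begins_sum (b k : ℕ) (μ : ℕ → ℝ) (i u : ℕ) (hi : i < k) :
    ∑ a ∈ range b, begins b k μ (i + 1) (b * u + a) = begins b k μ i u := by
  unfold begins
  obtain ⟨n, hn⟩ : ∃ n, k - i = n + 1 := ⟨k - i - 1, by omega⟩
  have h1 : k - (i + 1) = n := by omega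
  rw [h1, hn, pow_succ, mul_comm (b ^ n) b, Pool.Agent.N625.PT.sum_blocks b (b ^ n)]
  apply sum_congr rfl
  intro a _
  apply sum_congr rfl
  intro w _
  congr 1
  ring

lemma flex_of {b L T k : ℕ} {η : ℝ} {p : ℕ → ℝ} (hp : Exchangeable b L η T k p) : Pool.Agent.N625.PT.Flex b L η T k p := by
  obtain ⟨h0, h1, μ, m0, m1, m2, m3⟩ := hp
  have hT : (0 : ℝ) ≤ (k : ℝ) ^ T := by positivity
  have hb0 : ∀ i u, 0 ≤ begins b k μ i u := fun i u => sum_nonneg fun w _ => m0 _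
  refine ⟨h0, h1, fun i u => (k : ℝ) ^ T * begins b k μ i u, fun i u => mul_nonneg hT (hb0 i u), ?_, ?_, ?_, ?_⟩
  · intro v hv
    refine (m2 v hv).trans (le_of_eq ?_)
    unfold begins
    simp
  · intro i hi u _
    simp only
    rw [← mul_sum, begins_sum b k μ i u hi]
  · simp only
    have : begins b k μ 0 0 = 1 := by
      unfold begins
      simpa using m1
    rw [this, mul_one]
  · intro i u hi hu
    obtain ⟨a, a', r, q1, q2, q3, q4, q5, q6, q7⟩ := m3 i u hi hu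
    refine ⟨a, a', r, q1, q2, q3, q4, q5, ?_, ?_⟩
    · simp only
      calc η * ((k : ℝ) ^ T * begins b k μ i u) = (k : ℝ) ^ T * (η * begins b k μ i u) := by ring
        _ ≤ _ := mul_le_mul_of_nonneg_left q6 hT
    · simp only
      calc η * ((k : ℝ) ^ T * begins b k μ i u) = (k : ℝ) ^ T * (η * begins b k μ i u) := by ring
        _ ≤ _ := mul_le_mul_of_nonneg_left q7 hT

theorem nth_inj : Function.Injective (Nat.nth Nat.Prime) := Nat.nth_injective Nat.infinite_setOfPred_prime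

theorem p_inj (n : ℕ) : Set.InjOn p (Ioo 0 n : Finset ℕ) := by
  intro a ha b hb hab
  rw [mem_coe, mem_Ioo] at ha hb
  have := nth_inj hab
  omega

theorem pp_inj (n : ℕ) : Set.InjOn (fun k => p (p (n - k))) (Ioo 0 n : Finset ℕ) := by
  intro a ha b hb hab
  rw [mem_coe, mem_Ioo] at ha hb
  have h1 := nth_inj hab
  have h2 : 2 ≤ p (n - a) := (Nat.prime_nth_prime _).two_le
  have h3 : 2 ≤ p (n - b) := (Nat.prime_nth_prime _).two_le
  have h4 : p (n - a) = p (n - b) := by omega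
  have h5 := nth_inj h4
  omega

/-- Let `v`, `v' < b ^ d` be independent random integers whose distributions `μ`, `μ'` have exchangeable blocks of digits,
let `y` be between `K₀ log d` and `K₁ log d`, `M` the product of the primes `≤ y`, and `n` ANY integer with `b ^ d ≤ n d ^ C`,
`n ≤ b ^ d d ^ C`. Let `|c|, |c'| ≤ B b ^ d`, `1 ≤ h, h' ≤ d ^ J`, `H = M h (c + κ v)`, `H' = M h' (c' + κ v')`. For every set
`K` of at least `n / d ^ A` integers `0 < k < n` the following has a probability of at most `ε`: `H, H' ≥ 0` and both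
`p_k + H` and `p_{p_m} + H'`, `m = n - k`, are prime for fewer than `(1 - ε) #K / (V y log b ^ d) ^ 2` elements `k` of `K`. -/
theorem result : ∀ (b L : ℕ), 2 ≤ b → 1 ≤ L → ∀ η : ℝ, 0 < η → η ≤ 1 → ∀ (T₀ : ℕ) (κ : ℤ), κ ≠ 0 →
    ∀ (B J A C : ℕ) (ε : ℝ), 0 < ε → ε ≤ 1 → ∃ K₀ : ℕ, ∀ K₁ : ℕ, ∃ d₀ : ℕ, ∀ d : ℕ, d₀ ≤ d →
    ∀ μ μ' : ℕ → ℝ, Exchangeable b L η T₀ d μ → Exchangeable b L η T₀ d μ' →
    ∀ y : ℕ, K₀ * Real.log d ≤ y → y ≤ K₁ * Real.log d →
    ∀ c c' : ℤ, |c| ≤ B * (b : ℤ) ^ d → |c'| ≤ B * (b : ℤ) ^ d → ∀ h h' : ℕ, 1 ≤ h → h ≤ d ^ J → 1 ≤ h' → h' ≤ d ^ J →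
    ∀ n : ℕ, b ^ d ≤ n * d ^ C → n ≤ b ^ d * d ^ C → ∀ K : Finset ℕ, K ⊆ Ioo 0 n → (n : ℝ) ≤ K.card * (d : ℝ) ^ A →
      ∑ v ∈ range (b ^ d), ∑ v' ∈ range (b ^ d), (if 0 ≤ Nv y h c κ v ∧ 0 ≤ Nv y h' c' κ v' ∧
        ((Good2 n K (Nv y h c κ v).toNat (Nv y h' c' κ v').toNat).card : ℝ) <
          (1 - ε) * (K.card / (V y * (d * Real.log b)) ^ 2) then μ v * μ' v' else 0) ≤ ε := by
  classical
  intro b L hb hL η hη0 hη1 T₀ κ hκ B J A C ε hε hε1
  obtain ⟨K₀, h0⟩ := Pool.Agent.N625.PT.dense_pair b L hb hL η hη0 hη1 κ hκ T₀ B J (A + 10) (C + 10) ε hε hε1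
  refine ⟨K₀, fun K₁ => ?_⟩
  obtain ⟨k₀, h0⟩ := h0 K₁
  obtain ⟨n4, hn4⟩ := Pool.Agent.Y877.SX.nth_le_log
  obtain ⟨n5, hn5⟩ := Pool.Agent.Y877.SX.nth_nth_le_log
  obtain ⟨k₁, h1⟩ := Pool.Agent.N625.PT.X_large b C hb
  obtain ⟨k₂, h2⟩ := Pool.Agent.N625.PT.log_X b C hb
  refine ⟨max (max k₀ k₁) (max k₂ (max (max n4 n5) 1)), fun d hd μ μ' hμ hμ' y hy1 hy2 c c' hc hc' h h' hh1 hhJ hh1' hhJ' n hn1 hn2 K hK hKA => ?_⟩
  have b0 : 1 ≤ d := by omega
  have hdr : (1 : ℝ) ≤ d := by exact_mod_cast b0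
  have b1 := h1 d (by omega) n hn1
  have b2 := h2 d (by omega) n hn2
  have hln : 0 ≤ Real.log n := Real.log_natCast_nonneg n
  have hn0 : (0 : ℝ) ≤ n := Nat.cast_nonneg n
  have f0 : ∀ e : ℕ, e ≤ 5 → ∀ q : ℕ, (q : ℝ) ≤ n * Real.log n ^ e → q ≤ n * d ^ 10 := by
    intro e he q hq
    have g1 : (q : ℝ) ≤ n * (d : ℝ) ^ 10 := by
      refine hq.trans ?_
      apply mul_le_mul_of_nonneg_left _ hn0
      calc Real.log n ^ e ≤ ((d : ℝ) ^ 2) ^ e := pow_le_pow_left₀ hln b2 _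
        _ = (d : ℝ) ^ (2 * e) := by rw [pow_mul]
        _ ≤ (d : ℝ) ^ 10 := pow_le_pow_right₀ hdr (by omega)
    exact_mod_cast g1
  have f1 : ∀ k ∈ K, (p k).Prime ∧ p k ≤ n * d ^ 10 := by
    intro k hk
    have hk2 := mem_Ioo.1 (hK hk)
    exact ⟨Nat.prime_nth_prime _, f0 2 (by norm_num) _ (hn4 n (by omega) (k - 1) (by omega))⟩
  have f2 : ∀ k ∈ K, (p (p (n - k))).Prime ∧ p (p (n - k)) ≤ n * d ^ 10 := by
    intro k hk
    exact ⟨Nat.prime_nth_prime _, f0 5 le_rfl _ (hn5 n (by omega) (n - k - 1) (by omega))⟩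
  have g1 : b ^ d ≤ (n * d ^ 10) * d ^ (C + 10) := by
    refine hn1.trans ?_
    rw [mul_assoc, ← pow_add]
    exact Nat.mul_le_mul_left _ (Nat.pow_le_pow_right (by omega) (by omega))
  have g2 : n * d ^ 10 ≤ b ^ d * d ^ (C + 10) := by
    calc n * d ^ 10 ≤ (b ^ d * d ^ C) * d ^ 10 := Nat.mul_le_mul_right _ hn2
      _ = _ := by rw [mul_assoc, ← pow_add]
  have g3 : ((n * d ^ 10 : ℕ) : ℝ) ≤ K.card * (d : ℝ) ^ (A + 10) := by
    push_cast
    calc (n : ℝ) * (d : ℝ) ^ 10 ≤ (K.card * (d : ℝ) ^ A) * (d : ℝ) ^ 10 := mul_le_mul_of_nonneg_right hKA (by positivity)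
      _ = _ := by rw [mul_assoc, ← pow_add]
  refine le_trans (le_of_eq ?_) (h0 d (by omega) μ μ' (flex_of hμ) (flex_of hμ') y hy1 hy2 c c' hc hc' h h' hh1 hhJ hh1' hhJ'
    (n * d ^ 10) g1 g2 K p (fun k => p (p (n - k))) ((p_inj n).mono (by exact_mod_cast hK)) f1
    ((pp_inj n).mono (by exact_mod_cast hK)) f2 g3)
  apply sum_congr rfl
  intro v _
  apply sum_congr rfl
  intro v' _
  congr!

end Pool.Agent.Results.MP_04e9b2_nt.ExchangeableShiftPairs
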