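import Pool.Agent.N694.IX.Box
import Pool.Agent.N694.BR.Abs

/-!
# Almost all vectors in a Bohr set: patterns of primes with all indices modulo `n`

The question is whether every integer `> 2` is a sum `j + m` with `p_j + 2` and `p_{p_m} + 2` prime. It concerns the
indices `j = π(p)` of the primes `p` for which `p + 2` is prime. Call a vector `h = (h_1, ..., h_k)` of integers
good for `q, b, n` if for some `C` and for arbitrarily large `x`, for every `J ⊆ {0, ..., k}` and all residues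
`a_0, ..., a_k` modulo `n`, at least `x / (log x)^C` of the `m ≤ x` are `≡ b` modulo `q`, have `m + h_i` prime exactly
for `i ∈ J` (`h_0 = 0`), and `π(m + h_i) ≡ a_i` modulo `n` for all `i = 0, ..., k`.

For all `k`, `s` and `ε > 0` there are `d` and `ρ, δ > 0` such that for all `q`, `b` (coprime) and `n` there are `M` and
`n₀` such that for EVERY multiple `N` of `M` and every `H ≥ n₀` there are real numbers `θ_1, ..., θ_d'`, `d' ≤ d`, and
a radius `ρ ≤ r ≤ 1` such that the Bohr set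

  `B = { t : |t| ≤ H, |exp (2 π i θ_j t) - 1| ≤ r for all j }`

has at least `δ H` elements, and for all but at most `ε |B|^k` of the vectors `y ∈ B^k` all the vectors
`N T y`, `T` a nonsingular integer matrix with entries at most `s` in absolute value, are good. For `k = 1` and
`J = {0, 1}`: for almost all `y ∈ B` the set of the indices `j` with `p_j + N y` prime contains infinitely many
elements of every class modulo `n`, also if moreover the index of the prime `p_j + N y` is prescribed modulo `n`;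
so no congruence obstructs the representation of integers by sums of such indices, and indices prime to
`n` occur as for `p_{p_m}`.

Proof: `Pool.Agent.N694.IX.cleI` (primes in blocks of positions, coloured Maynard-Tao theorem
`Pool.Agent.Y827.HN.patRD`, a Ramsey argument, almost cliques `Pool.Agent.N646.AC.wclique`) and the theorem on
returns in Bohr sets (`Pool.Agent.N646.AC.returnsZ`) of helper646.
-/

set_option autoImplicit false

namespace Pool.Agent.Results.MP_04e9b2_nt.IndicesInBohrSets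

open Finset Filter

/-- `m ≡ b` modulo `q`; the number `m + h i` is prime exactly for `i ∈ J`; and for every `i` the number
`π(m + h i)` of the primes up to `m + h i` (the index of `m + h i` if this is a prime) is `≡ a i` modulo `n`. -/
def Pattern (q : ℕ) (b : ℤ) (n : ℕ) {k : ℕ} (h : Fin (k + 1) → ℤ) (J : Finset (Fin (k + 1)))
    (a : Fin (k + 1) → ℕ) (m : ℕ) : Prop :=
  (m : ℤ) ≡ b [ZMOD q] ∧ ∀ i, (((m : ℤ) + h i).toNat.Prime ↔ i ∈ J) ∧
    Nat.primeCounting ((m : ℤ) + h i).toNat ≡ a i [MOD n]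

/-- For some `C` and for arbitrarily large `x`, every pattern `J` with every vector `a` of residues modulo `n`
occurs at the shifts `0, h_1, ..., h_k` for at least `x / (log x)^C` of the `1 ≤ m ≤ x`. -/
def Good (q : ℕ) (b : ℤ) (n : ℕ) {k : ℕ} (h : Fin k → ℤ) : Prop := ∃ C : ℕ, ∃ᶠ x : ℕ in atTop,
  ∀ (J : Finset (Fin (k + 1))) (a : Fin (k + 1) → ℕ), (x : ℝ) / (Real.log x) ^ C ≤
    ({m : ℕ | (1 ≤ m ∧ m ≤ x) ∧ Pattern q b n (Fin.cons 0 h : Fin (k + 1) → ℤ) J a m}.ncard : ℝ)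

open Classical in
/-- the Bohr set of the integers `|t| ≤ H` with `|exp (2πiθt) - 1| ≤ r` for all `θ ∈ Θ` -/
noncomputable def bohrSet (Θ : Finset ℝ) (r : ℝ) (H : ℕ) : Finset ℤ :=
  (Icc (-(H : ℤ)) H).filter (fun t => ∀ θ ∈ Θ,
    ‖Complex.exp (2 * Real.pi * Complex.I * θ * t) - 1‖ ≤ r)

/-- the set of the vectors with `k` coordinates in `B` -/
def vectors (k : ℕ) (B : Finset ℤ) : Finset (Fin k → ℤ) := Fintype.piFinset (fun _ => B)

/-- **Bohr sets of shifts, with indices modulo `n`.** -/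
theorem result (k s : ℕ) (ε : ℝ) (hε : 0 < ε) : ∃ (d : ℕ) (ρ δ : ℝ), 0 < ρ ∧ 0 < δ ∧
    ∀ q : ℕ, 1 ≤ q → ∀ b : ℤ, IsCoprime (q : ℤ) b → ∀ n : ℕ, 1 ≤ n → ∃ M n₀ : ℕ, 1 ≤ M ∧
      ∀ N : ℕ, 1 ≤ N → M ∣ N → ∀ H : ℕ, n₀ ≤ H → ∃ (Θ : Finset ℝ) (r : ℝ),
        Θ.card ≤ d ∧ ρ ≤ r ∧ r ≤ 1 ∧ δ * H ≤ (bohrSet Θ r H).card ∧
        ∃ 𝒢 ⊆ vectors k (bohrSet Θ r H),
          ((vectors k (bohrSet Θ r H) \ 𝒢).card : ℝ) ≤ ε * ((bohrSet Θ r H).card : ℝ) ^ k ∧
          ∀ y ∈ 𝒢, ∀ T : Matrix (Fin k) (Fin k) ℤ, (∀ i j, |T i j| ≤ s) → T.det ≠ 0 →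
            Good q b n (fun i => N * (T.mulVec y) i) := by
  obtain ⟨d, ρ, δ, ε', hρ, hδ, hε', h⟩ := Pool.Agent.N694.BR.bohr k s ε hε
  refine ⟨d, ρ, δ, hρ, hδ, fun q hq b hb n hn => ?_⟩
  obtain ⟨M, n₀, hM, h1⟩ := h _ (Pool.Agent.N694.IX.cleI k ε' hε' q hq b hb n hn)
  refine ⟨M, n₀, hM, fun N hN hMN H hH => ?_⟩
  obtain ⟨Θ, r, g1, g2, g3, g4, 𝒢, g5, g6, g7⟩ := h1 N hN hMN H hH
  refine ⟨Θ, r, g1, g2, g3, g4, 𝒢, g5, ?_, fun y hy T hT hdet => (g7 y hy T hT hdet).2⟩
  refine le_trans (le_of_eq ?_) g6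
  congr 2

end Pool.Agent.Results.MP_04e9b2_nt.IndicesInBohrSets
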