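import Pool.Agent.N798.H.All

/-!
# Decompositions `n = k + m` and prime values of almost all real multiples of `p_k`, `p_{p_m}`

Let `u_1, …, u_t` be ARBITRARY increasing sequences of positive integers with `u_i(j) ≤ j (log j)^C`, for instance
`p_j`, `p_{p_j}`, or the enumeration of any set of integers with at least `x / (log x)^C` elements up to `x`; each
of them is attached to the first or to the second summand of `n = k + m`.  For almost every
`(α_1, …, α_t) ∈ (0, ∞)^t` and all integers `b_i`, all the numbers `⌊α_i u_i(k or m)⌋ + b_i` are primes for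
`~ n / (log n)^t` of the decompositions `n = k + m`, for all `n` outside a set with `o(N / (log N)^K)` elements up
to `N`, for every `K`.  If only one of the summands occurs, there are no exceptions: `⌊α_i u_i(j)⌋ + b_i` are all
prime for `~ N / (log N)^t` of the `j ≤ N`.
-/

set_option autoImplicit false

namespace Pool.Agent.Results.MP_04e9b2_nt.MetricIndexSums

open Finset MeasureTheory Filter Topology

/-- `u 1 < u 2 < …` are positive integers and `u j ≤ j (log j)^C` for large `j`, for some `C` -/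
def Slow (u : ℕ → ℕ) : Prop := (∀ m n, 1 ≤ m → m < n → u m < u n) ∧ 1 ≤ u 1 ∧
  ∃ C n0 : ℕ, ∀ n, n0 ≤ n → (u n : ℝ) ≤ n * (Real.log n) ^ C

/-- the `j`-th prime `p_j`, so that `p_1 = 2` -/
noncomputable def pr (j : ℕ) : ℕ := Nat.nth Nat.Prime (j - 1)

/-- the first summand `k` or the second summand `n - k` -/
def summand (second : Bool) (n k : ℕ) : ℕ := if second then n - k else k

/-- the number of decompositions `n = k + (n - k)`, `0 < k < n`, for which all the `⌊α_i u_i⌋ + b_i` are primes,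
where `u_i` is taken at the first or at the second summand -/
noncomputable def count {t : ℕ} (u : Fin t → ℕ → ℕ) (second : Fin t → Bool) (b : Fin t → ℤ) (α : Fin t → ℝ)
    (n : ℕ) : ℕ :=
  #((Ioo 0 n).filter fun k : ℕ => ∀ i, (⌊α i * (u i (summand (second i) n k) : ℝ)⌋ + b i).toNat.Prime)

/-- the expected number, over the `k` with `k, n - k > √n` -/
noncomputable def expected {t : ℕ} (u : Fin t → ℕ → ℕ) (second : Fin t → Bool) (α : Fin t → ℝ) (n : ℕ) : ℝ :=
  ∑ k ∈ (range n).filter (fun k => Nat.sqrt n < k ∧ Nat.sqrt n < n - k),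
    ∏ i, 1 / Real.log (α i * u i (summand (second i) n k))

open Classical in
/-- `E` has `o(N / (log N)^K)` elements up to `N`, for every `K` -/
def Thin (E : ℕ → Prop) : Prop := ∀ K : ℕ,
  Tendsto (fun N : ℕ => (#((Icc 1 N).filter E) : ℝ) * (Real.log N) ^ K / N) atTop (𝓝 0)

/-- the number of `j ≤ N` for which all the `⌊α_i u_i(j)⌋ + b_i` are primes -/
noncomputable def single {t : ℕ} (u : Fin t → ℕ → ℕ) (b : Fin t → ℤ) (α : Fin t → ℝ) (N : ℕ) : ℕ :=
  #((Icc 1 N).filter fun j : ℕ => ∀ i, (⌊α i * (u i j : ℝ)⌋ + b i).toNat.Prime)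

/-- the number of `0 < k < n` for which `⌊α p_k⌋ + b` and `⌊β p_{p_m}⌋ + c`, `m = n - k`, are primes -/
noncomputable def pairCount (α β : ℝ) (b c : ℤ) (n : ℕ) : ℕ :=
  #((Ioo 0 n).filter fun k : ℕ => (⌊α * (pr k : ℝ)⌋ + b).toNat.Prime ∧
    (⌊β * (pr (pr (n - k)) : ℝ)⌋ + c).toNat.Prime)

lemma zero_thin {t : ℕ} (f : ℕ → ℕ) (h : ∀ ε : ℝ, 0 < ε → Thin fun n => ε < |(f n : ℝ) / (n / (Real.log n) ^ t) - 1|) :
    Thin fun n => f n = 0 := by
  refine Pool.Agent.N798.HS.thin_mono (Eventually.of_forall fun n hn => ?_) (h (1 / 2) (by norm_num))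
  rw [hn, Nat.cast_zero, zero_div, zero_sub, abs_neg, abs_one]
  norm_num

lemma single_lim {t : ℕ} (u : Fin t → ℕ → ℕ) (b : Fin t → ℤ) (α : Fin t → ℝ)
    (h : Tendsto (fun n : ℕ => (Pool.Agent.N798.HS.reps u (fun _ => false) b α n : ℝ) / (n / (Real.log n) ^ t))
      atTop (𝓝 1)) :
    Tendsto (fun N : ℕ => (single u b α N : ℝ) / (N / (Real.log N) ^ t)) atTop (𝓝 1) := by
  have h0 : Tendsto (fun N : ℕ => (Real.log (N:ℝ)) ^ t / (N:ℝ)) atTop (𝓝 0) := by
    have h2 : Tendsto (fun x : ℝ => (Real.log x) ^ t / x) atTop (𝓝 0) := by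
      have := (Real.isLittleO_pow_log_id_atTop (n := t)).tendsto_div_nhds_zero
      simpa using this
    exact h2.comp tendsto_natCast_atTop_atTop
  have h1 := h.add h0
  rw [add_zero] at h1
  have key : ∀ N : ℕ, Pool.Agent.N798.HS.reps u (fun _ => false) b α N ≤ single u b α N ∧
      single u b α N ≤ Pool.Agent.N798.HS.reps u (fun _ => false) b α N + 1 := by
    intro N
    unfold Pool.Agent.N798.HS.reps single
    simp only [Pool.Agent.N798.HS.arg, Bool.false_eq_true, if_false]
    constructor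
    · apply Finset.card_le_card
      intro j hj
      rw [mem_filter, mem_Ioo] at hj
      rw [mem_filter, mem_Icc]
      exact ⟨⟨hj.1.1, hj.1.2.le⟩, hj.2⟩
    · refine (Finset.card_le_card (t := insert N ((Ioo 0 N).filter fun j : ℕ =>
        ∀ i, (⌊α i * (u i j : ℝ)⌋ + b i).toNat.Prime)) ?_).trans (Finset.card_insert_le _ _)
      intro j hj
      rw [mem_filter, mem_Icc] at hj
      rw [mem_insert, mem_filter, mem_Ioo]
      by_cases h3 : j = N
      · exact Or.inl h3
      · exact Or.inr ⟨⟨hj.1.1, by omega⟩, hj.2⟩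
  refine tendsto_of_tendsto_of_tendsto_of_le_of_le' h h1 ?_ ?_
  · filter_upwards [eventually_ge_atTop 1] with N hN
    have hl : 0 ≤ Real.log (N:ℝ) := Real.log_nonneg (by exact_mod_cast hN)
    exact div_le_div_of_nonneg_right (by exact_mod_cast (key N).1) (by positivity)
  · filter_upwards [eventually_ge_atTop 1] with N hN
    have hl : 0 ≤ Real.log (N:ℝ) := Real.log_nonneg (by exact_mod_cast hN)
    have h3 : (single u b α N : ℝ) ≤ Pool.Agent.N798.HS.reps u (fun _ => false) b α N + 1 := by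
      exact_mod_cast (key N).2
    have e1 : (Real.log (N:ℝ)) ^ t / (N:ℝ) = 1 / (N / (Real.log N) ^ t) := by rw [one_div_div]
    rw [e1, ← add_div]
    exact div_le_div_of_nonneg_right h3 (by positivity)

/-- **Prime values of almost all real multiples along arbitrary sequences, and decompositions `n = k + m`.** -/
theorem result :
    (∀ (t : ℕ) (u : Fin t → ℕ → ℕ), (∀ i, Slow (u i)) → ∀ second : Fin t → Bool,
      ∀ᵐ α : Fin t → ℝ, (∀ i, 0 < α i) → ∀ b : Fin t → ℤ,
        (∀ L : ℕ, Thin fun n => (n : ℝ) / (Real.log n) ^ L <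
          |(count u second b α n : ℝ) - expected u second α n|) ∧
        (∀ ε : ℝ, 0 < ε → Thin fun n => ε < |(count u second b α n : ℝ) / (n / (Real.log n) ^ t) - 1|) ∧
        Thin fun n => count u second b α n = 0) ∧
    (∀ (t : ℕ) (u : Fin t → ℕ → ℕ), (∀ i, Slow (u i)) →
      ∀ᵐ α : Fin t → ℝ, (∀ i, 0 < α i) → ∀ b : Fin t → ℤ,
        Tendsto (fun N : ℕ => (single u b α N : ℝ) / (N / (Real.log N) ^ t)) atTop (𝓝 1)) ∧
    (Slow pr ∧ Slow (fun j => pr (pr j))) ∧
    (∀ᵐ α : Fin 2 → ℝ, (∀ i, 0 < α i) → ∀ b c : ℤ,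
      (∀ ε : ℝ, 0 < ε → Thin fun n => ε < |(pairCount (α 0) (α 1) b c n : ℝ) / (n / (Real.log n) ^ 2) - 1|) ∧
      Thin fun n => ¬ ∃ k m : ℕ, 1 ≤ k ∧ 1 ≤ m ∧ n = k + m ∧ (⌊α 0 * (pr k : ℝ)⌋ + b).toNat.Prime ∧
        (⌊α 1 * (pr (pr m) : ℝ)⌋ + c).toNat.Prime) := by
  have hpr : Slow pr := Pool.Agent.N75.HS.np
  have hpp : Slow (fun j => pr (pr j)) := Pool.Agent.N75.HS.cp pr pr hpr hpr
  have h1 : ∀ (t : ℕ) (u : Fin t → ℕ → ℕ), (∀ i, Slow (u i)) → ∀ second : Fin t → Bool,
      ∀ᵐ α : Fin t → ℝ, (∀ i, 0 < α i) → ∀ b : Fin t → ℤ,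
        (∀ L : ℕ, Thin fun n => (n : ℝ) / (Real.log n) ^ L <
          |(count u second b α n : ℝ) - expected u second α n|) ∧
        (∀ ε : ℝ, 0 < ε → Thin fun n => ε < |(count u second b α n : ℝ) / (n / (Real.log n) ^ t) - 1|) ∧
        Thin fun n => count u second b α n = 0 := by
    intro t u hu second
    filter_upwards [Pool.Agent.N798.HS.finP u hu second] with α hα hpos b
    obtain ⟨h2, h3⟩ := hα hpos b
    exact ⟨h2, h3, zero_thin (t := t) _ h3⟩
  refine ⟨h1, ?_, ⟨hpr, hpp⟩, ?_⟩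
  · intro t u hu
    filter_upwards [Pool.Agent.N798.HS.leftP u hu] with α hα hpos b
    exact single_lim u b α (hα hpos b)
  · have hu : ∀ i, Slow ((![pr, fun j => pr (pr j)] : Fin 2 → ℕ → ℕ) i) := by
      intro i
      fin_cases i
      · exact hpr
      · exact hpp
    filter_upwards [h1 2 ![pr, fun j => pr (pr j)] hu ![false, true]] with α hα hpos b c
    obtain ⟨-, h2, h3⟩ := hα hpos ![b, c]
    have e1 : ∀ n, count ![pr, fun j => pr (pr j)] ![false, true] ![b, c] α n = pairCount (α 0) (α 1) b c n := by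
      intro n
      unfold count pairCount
      congr 2
      funext k
      simp [Fin.forall_fin_two, summand]
    simp only [e1] at h2 h3
    refine ⟨h2, Pool.Agent.N798.HS.thin_mono (Eventually.of_forall fun n hn => ?_) h3⟩
    by_contra h4
    apply hn
    have h5 : 0 < pairCount (α 0) (α 1) b c n := Nat.pos_of_ne_zero h4
    unfold pairCount at h5
    obtain ⟨k, hk⟩ := Finset.card_pos.1 h5
    rw [mem_filter, mem_Ioo] at hk
    exact ⟨k, n - k, hk.1.1, by omega, by omega, hk.2.1, hk.2.2⟩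

end Pool.Agent.Results.MP_04e9b2_nt.MetricIndexSums
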