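import Mathlib
import Pool.Agent.N951.TF.Stop

set_option autoImplicit false

/-!
# Representations `n = k + m` with `p_k + 2` and `p_{p_m} + 2` prime, in all sequential random models

The question is whether every `n > 2` is `k + m` with `p_k + 2` and `p_{p_m} + 2` prime.
We prove that in EVERY sequential random model of the primes (the integers are decided one after the
other, the conditional probability of choosing `n + 1` given the past is asymptotic to `1 / log n`; no
independence, no rate) the number of such representations of `n` is asymptotic to `n / log² n`.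
-/

open MeasureTheory Filter
open scoped Topology

namespace Pool.Agent.Results.MP_04e9b2_nt.SequentialModels

/-- the element number `k` of `S` in increasing order (the least one has number `1`) -/
noncomputable def p (S : Set ℕ) (k : ℕ) : ℕ := Nat.nth (· ∈ S) (k - 1)

/-- the `k` for which `n = k + m`, `m ≥ 1`, is a representation as in the question, with the elements
of `S` in the role of the primes -/
def dec (S : Set ℕ) (n : ℕ) : Set ℕ :=
  {k | 0 < k ∧ k < n ∧ p S k + 2 ∈ S ∧ p S (p S (n - k)) + 2 ∈ S}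

open Pool.Agent.N909.TF Pool.Agent.N951.TF

lemma p_eq (S : Set ℕ) (k : ℕ) : p S k = pk S k := rfl

/-- all small indices -/
def ruleT (n j : ℕ) (_ : Finset ℕ) : Prop := j < n

/-- all small chosen indices -/
def ruleV (n j : ℕ) (s : Finset ℕ) : Prop := j < n ∧ j ∈ s

/-- the indices `P_m`, when `P_{n - m} + 2` is known to be chosen -/
def ruleA (n j : ℕ) (s : Finset ℕ) : Prop :=
  ∃ m, 0 < m ∧ m < n ∧ isP (s : Set ℕ) m j ∧ n - m < j ∧ ∃ c, isP (s : Set ℕ) (n - m) c ∧ c + 2 ∈ s

/-- the indices `n - m`, when `P_{P_m} + 2` is known to be chosen -/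
def ruleB (n j : ℕ) (s : Finset ℕ) : Prop :=
  ∃ m, 0 < m ∧ m < n ∧ j = n - m ∧ ∃ a b, isP (s : Set ℕ) m a ∧ a < j ∧ isP (s : Set ℕ) a b ∧ b + 2 ∈ s

variable {Ω : Type} {A : ℕ → Set Ω} {ω : Ω}

lemma mem_ch' {k t : ℕ} (h : t ≤ k) : t ∈ ch A k ω ↔ t ∈ {t | ω ∈ A t} := by
  rw [mem_ch]
  exact ⟨fun h' => h'.2, fun h' => ⟨h, h'⟩⟩

lemma mem_T {n j : ℕ} : j ∈ JJ A ruleT n ω ↔ 0 < j ∧ j < n := by
  rw [mem_JJ]
  unfold ruleT
  constructor
  · rintro ⟨⟨h1, _⟩, h3⟩
    exact ⟨h1, h3⟩
  · rintro ⟨h1, h2⟩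
    exact ⟨⟨h1, by nlinarith⟩, h2⟩

lemma mem_V (hS : {t | ω ∈ A t}.Infinite) {n j : ℕ} : j ∈ JJ A ruleV n ω ↔ 0 < j ∧ j < n ∧ j ∈ {t | ω ∈ A t} := by
  rw [mem_JJ]
  unfold ruleV
  have h0 : j ≤ pk {t | ω ∈ A t} j + 1 := pk_ge hS j
  rw [mem_ch' h0]
  constructor
  · rintro ⟨⟨h1, _⟩, h3⟩
    exact ⟨h1, h3⟩
  · rintro ⟨h1, h2, h3⟩
    exact ⟨⟨h1, by nlinarith⟩, h2, h3⟩

lemma mem_A (hS : {t | ω ∈ A t}.Infinite) {n j : ℕ} : j ∈ JJ A ruleA n ω ↔ (0 < j ∧ j ≤ n ^ 2) ∧
    ∃ m, 0 < m ∧ m < n ∧ pk {t | ω ∈ A t} m = j ∧ n - m < j ∧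
      pk {t | ω ∈ A t} (n - m) + 2 ∈ {t | ω ∈ A t} := by
  rw [mem_JJ]
  unfold ruleA
  refine and_congr_right fun hj => exists_congr fun m => and_congr_right fun hm => and_congr_right fun hmn => ?_
  have h0 : j ≤ pk {t | ω ∈ A t} j + 1 := pk_ge hS j
  rw [isP_ch, isP_iff hS]
  constructor
  · rintro ⟨⟨-, -, h1⟩, h2, c, h3, h4⟩
    rw [isP_ch, isP_iff hS] at h3
    obtain ⟨-, -, rfl⟩ := h3
    exact ⟨h1, h2, (mem_ch.1 h4).2⟩
  · rintro ⟨h1, h2, h3⟩
    have h5 := pk_lt hS (show 0 < n - m by omega) h2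
    refine ⟨⟨h0, hm, h1⟩, h2, _, isP_ch.2 ⟨by omega, (isP_iff hS).2 ⟨by omega, rfl⟩⟩, ?_⟩
    rw [mem_ch]
    exact ⟨by omega, h3⟩

lemma mem_B (hS : {t | ω ∈ A t}.Infinite) {n j : ℕ} : j ∈ JJ A ruleB n ω ↔
    ∃ m, 0 < m ∧ m < n ∧ j = n - m ∧ 0 < pk {t | ω ∈ A t} m ∧ pk {t | ω ∈ A t} m < j ∧
      pk {t | ω ∈ A t} (pk {t | ω ∈ A t} m) + 2 ∈ {t | ω ∈ A t} := by
  rw [mem_JJ]
  unfold ruleB
  have h0 : j ≤ pk {t | ω ∈ A t} j + 1 := pk_ge hS j
  constructor
  · rintro ⟨-, m, hm, hmn, hj, a, b, h1, h2, h3, h4⟩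
    rw [isP_ch, isP_iff hS] at h1 h3
    obtain ⟨-, -, rfl⟩ := h1
    obtain ⟨-, h5, rfl⟩ := h3
    exact ⟨m, hm, hmn, hj, h5, h2, (mem_ch.1 h4).2⟩
  · rintro ⟨m, hm, hmn, hj, h1, h2, h3⟩
    have h5 := pk_lt hS h1 h2
    refine ⟨⟨by omega, ?_⟩, m, hm, hmn, hj, _, _, isP_ch.2 ⟨by omega, (isP_iff hS).2 ⟨hm, rfl⟩⟩, h2,
      isP_ch.2 ⟨by omega, (isP_iff hS).2 ⟨h1, rfl⟩⟩, ?_⟩
    · have : j ≤ n := by omega
      nlinarith
    · rw [mem_ch]
      exact ⟨by omega, h3⟩

/-- the elements at the scale `n` -/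
lemma up_scale {S : Set ℕ} (hS : PNT S) (d : ℝ) (hd : 0 < d) :
    ∀ᶠ n : ℕ in atTop, ∀ m : ℕ, m < n → (pk S m : ℝ) ≤ (n : ℝ) ^ (1 + d) := by
  obtain ⟨C, hC, hup⟩ := pk_up_all hS (d / 2) (by positivity)
  filter_upwards [pow_beat (1 + d / 2) (1 + d) (C + 1) (by linarith) (by linarith), eventually_gt_atTop 0] with n g1 g2 m hm
  have hn0 : (0 : ℝ) < n := by exact_mod_cast g2
  have hmn : (m : ℝ) ≤ n := by exact_mod_cast hm.le
  have h1 := hup m
  have h2 : (m : ℝ) ^ (1 + d / 2) ≤ (n : ℝ) ^ (1 + d / 2) := Real.rpow_le_rpow (Nat.cast_nonneg m) hmn (by linarith)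
  have h3 : 0 < (n : ℝ) ^ (1 + d / 2) := Real.rpow_pos_of_pos hn0 _
  nlinarith

lemma up_sq {S : Set ℕ} (hS : PNT S) : ∀ᶠ n : ℕ in atTop, ∀ m : ℕ, m < n → pk S m ≤ n ^ 2 := by
  filter_upwards [up_scale hS 1 one_pos] with n g m hm
  have h1 := g m hm
  have h2 : (n : ℝ) ^ (1 + 1 : ℝ) = ((n ^ 2 : ℕ) : ℝ) := by
    rw [show (1 + 1 : ℝ) = ((2 : ℕ) : ℝ) by norm_num, Real.rpow_natCast]
    push_cast
    ring
  rw [h2] at h1
  exact_mod_cast h1

lemma lt_scale {n j : ℕ} {d : ℝ} (hd : 0 < d) (h : j < n) : (j : ℝ) ≤ (n : ℝ) ^ (1 + d) := by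
  have h1 : (1 : ℝ) ≤ n := by exact_mod_cast (by omega : 1 ≤ n)
  have h2 : (j : ℝ) ≤ n := by exact_mod_cast h.le
  refine h2.trans ?_
  nth_rewrite 1 [← Real.rpow_one (n : ℝ)]
  exact Real.rpow_le_rpow_of_exponent_le h1 (by linarith)

/-- an upper bound for the number of indices in case A -/
lemma A_le (hS : {t | ω ∈ A t}.Infinite) (n : ℕ) : (JJ A ruleA n ω).card ≤ (JP A ruleT n ω).card := by
  classical
  have h1 : JJ A ruleA n ω ⊆ (JP A ruleT n ω).image (fun i => pk {t | ω ∈ A t} (n - i)) := by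
    intro j hj
    obtain ⟨hj0, m, hm, hmn, h1, h2, h3⟩ := (mem_A hS).1 hj
    rw [Finset.mem_image]
    refine ⟨n - m, mem_JP.2 ⟨mem_T.2 ⟨by omega, by omega⟩, h3⟩, ?_⟩
    rw [show n - (n - m) = m by omega]
    exact h1
  exact (Finset.card_le_card h1).trans Finset.card_image_le

/-- a lower bound for the number of indices in case A -/
lemma A_ge (hS : PNT {t | ω ∈ A t}) (K : ℕ) (hK : 0 < K) : ∀ᶠ n : ℕ in atTop,
    (JP A ruleT (n - n / K) ω).card ≤ (JJ A ruleA n ω).card := by
  classical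
  have hinf := infinite_of_pnt hS
  obtain ⟨N, hN⟩ := eventually_atTop.1 (pk_gt hS K)
  filter_upwards [up_sq hS, eventually_ge_atTop (N * K)] with n g1 g2
  have hq := Nat.div_le_self n K
  have hq1 : n < K * (n / K + 1) := Nat.lt_mul_div_succ n hK
  have hq2 : N ≤ n / K := (Nat.le_div_iff_mul_le hK).2 g2
  clear g2
  generalize n / K = q at hq hq1 hq2 ⊢
  refine Finset.card_le_card_of_injOn (fun i => pk {t | ω ∈ A t} (n - i)) ?_ ?_
  · intro i hi
    obtain ⟨h1, h2⟩ := mem_JP.1 (Finset.mem_coe.1 hi)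
    obtain ⟨h3, h4⟩ := mem_T.1 h1
    have h5 : q < n - i := by omega
    have h6 : n < K * (n - i) := by
      have h7 : K * (q + 1) ≤ K * (n - i) := Nat.mul_le_mul_left K h5
      omega
    have h8 := hN (n - i) (by omega)
    have h9 : 0 < n - i := by omega
    have h10 : n - i < n := by omega
    have h11 : n - (n - i) = i := by omega
    rw [Finset.mem_coe]
    change pk {t | ω ∈ A t} (n - i) ∈ JJ A ruleA n ω
    rw [mem_A hinf]
    refine ⟨⟨by omega, g1 _ h10⟩, n - i, h9, h10, rfl, ?_, ?_⟩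
    · rw [h11]
      omega
    · rw [h11]
      exact h2
  · intro a ha b hb hab
    have ha' := mem_T.1 (mem_JP.1 (Finset.mem_coe.1 ha)).1
    have hb' := mem_T.1 (mem_JP.1 (Finset.mem_coe.1 hb)).1
    have := pk_inj hinf (show 0 < n - a by omega) (show 0 < n - b by omega) hab
    omega

/-- an upper bound for the number of indices in case B -/
lemma B_le (hS : {t | ω ∈ A t}.Infinite) (n : ℕ) : (JJ A ruleB n ω).card ≤ (JP A ruleV n ω).card := by
  classical
  refine Finset.card_le_card_of_injOn (fun j => pk {t | ω ∈ A t} (n - j)) ?_ ?_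
  · intro j hj
    obtain ⟨m, hm, hmn, h1, h2, h3, h4⟩ := (mem_B hS).1 (Finset.mem_coe.1 hj)
    have h5 : n - j = m := by omega
    rw [Finset.mem_coe]
    simp only [h5]
    exact mem_JP.2 ⟨(mem_V hS).2 ⟨h2, by omega, pk_mem hS m⟩, h4⟩
  · intro a ha b hb hab
    obtain ⟨m, hm, hmn, h1, -⟩ := (mem_B hS).1 (Finset.mem_coe.1 ha)
    obtain ⟨m', hm', hmn', h1', -⟩ := (mem_B hS).1 (Finset.mem_coe.1 hb)
    have := pk_inj hS (show 0 < n - a by omega) (show 0 < n - b by omega) hab
    omega

/-- the representations, split into the two cases -/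
lemma dec_card (hS : PNT {t | ω ∈ A t}) : ∀ᶠ n : ℕ in atTop,
    (JP A ruleA n ω).card + (JP A ruleB n ω).card ≤ (dec {t | ω ∈ A t} n).ncard ∧
    (dec {t | ω ∈ A t} n).ncard ≤ (JP A ruleA n ω).card + (JP A ruleB n ω).card + 2 := by
  classical
  have hinf := infinite_of_pnt hS
  filter_upwards [up_sq hS] with n g
  -- the finite sets
  set D : Finset ℕ := (Finset.Ioo 0 n).filter (fun k => pk {t | ω ∈ A t} k + 2 ∈ {t | ω ∈ A t} ∧ pk {t | ω ∈ A t} (pk {t | ω ∈ A t} (n - k)) + 2 ∈ {t | ω ∈ A t}) with hD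
  have hmemD : ∀ k, k ∈ D ↔ (0 < k ∧ k < n) ∧ pk {t | ω ∈ A t} k + 2 ∈ {t | ω ∈ A t} ∧ pk {t | ω ∈ A t} (pk {t | ω ∈ A t} (n - k)) + 2 ∈ {t | ω ∈ A t} := by
    intro k
    rw [hD, Finset.mem_filter, Finset.mem_Ioo]
  have hdec : dec {t | ω ∈ A t} n = (D : Set ℕ) := by
    ext k
    rw [Finset.mem_coe, hmemD]
    unfold dec
    rw [Set.mem_ofPred_eq]
    simp only [p_eq]
    tauto
  rw [hdec, Set.ncard_coe_finset]
  set DA := D.filter (fun k => k < pk {t | ω ∈ A t} (n - k)) with hDA
  set DB := D.filter (fun k => 0 < pk {t | ω ∈ A t} (n - k) ∧ pk {t | ω ∈ A t} (n - k) < k) with hDB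
  have cA : (JP A ruleA n ω).card = DA.card := by
    have h1 : JP A ruleA n ω = DA.image (fun k => pk {t | ω ∈ A t} (n - k)) := by
      ext j
      rw [mem_JP, mem_A hinf, Finset.mem_image]
      constructor
      · rintro ⟨⟨hj, m, hm, hmn, h1, h2, h3⟩, h4⟩
        have h5 : n - (n - m) = m := by omega
        refine ⟨n - m, ?_, by rw [h5]; exact h1⟩
        rw [hDA, Finset.mem_filter, hmemD, h5, h1]
        exact ⟨⟨⟨by omega, by omega⟩, h3, h4⟩, h2⟩
      · rintro ⟨k, hk, rfl⟩
        rw [hDA, Finset.mem_filter, hmemD] at hk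
        obtain ⟨⟨⟨h1, h2⟩, h3, h4⟩, h5⟩ := hk
        refine ⟨⟨⟨by omega, g _ (by omega)⟩, n - k, by omega, by omega, rfl, ?_, ?_⟩, h4⟩
        · rw [show n - (n - k) = k by omega]
          exact h5
        · rw [show n - (n - k) = k by omega]
          exact h3
    rw [h1, Finset.card_image_of_injOn]
    intro a ha b hb hab
    rw [Finset.mem_coe, hDA, Finset.mem_filter, hmemD] at ha hb
    have := pk_inj hinf (show 0 < n - a by omega) (show 0 < n - b by omega) hab
    omega
  have cB : JP A ruleB n ω = DB := by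
    ext j
    rw [mem_JP, mem_B hinf, hDB, Finset.mem_filter, hmemD]
    constructor
    · rintro ⟨⟨m, hm, hmn, h1, h2, h3, h4⟩, h5⟩
      have h6 : n - j = m := by omega
      rw [h6]
      exact ⟨⟨⟨by omega, by omega⟩, h5, h4⟩, h2, h3⟩
    · rintro ⟨⟨⟨h1, h2⟩, h3, h4⟩, h5, h6⟩
      exact ⟨⟨n - j, by omega, by omega, by omega, h5, h6, h4⟩, h3⟩
  rw [cA, cB]
  have hdisj : Disjoint DA DB := by
    rw [Finset.disjoint_left]
    intro k h1 h2
    rw [hDA, Finset.mem_filter] at h1
    rw [hDB, Finset.mem_filter] at h2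
    omega
  constructor
  · rw [← Finset.card_union_of_disjoint hdisj]
    apply Finset.card_le_card
    exact Finset.union_subset (Finset.filter_subset _ _) (Finset.filter_subset _ _)
  · set E0 := D.filter (fun k => pk {t | ω ∈ A t} (n - k) = 0) with hE0
    set E1 := D.filter (fun k => pk {t | ω ∈ A t} (n - k) = k) with hE1
    have hsub : D ⊆ (DA ∪ DB) ∪ (E0 ∪ E1) := by
      intro k hk
      simp only [Finset.mem_union, hDA, hDB, hE0, hE1, Finset.mem_filter]
      rcases lt_trichotomy k (pk {t | ω ∈ A t} (n - k)) with h | h | h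
      · left; left; exact ⟨hk, h⟩
      · right; right; exact ⟨hk, h.symm⟩
      · rcases Nat.eq_zero_or_pos (pk {t | ω ∈ A t} (n - k)) with h0 | h0
        · right; left; exact ⟨hk, h0⟩
        · left; right; exact ⟨hk, h0, h⟩
    have c0 : E0.card ≤ 1 := by
      refine Finset.card_le_one.2 fun a ha b hb => ?_
      rw [hE0, Finset.mem_filter, hmemD] at ha hb
      have := pk_inj hinf (show 0 < n - a by omega) (show 0 < n - b by omega) (ha.2.trans hb.2.symm)
      omega
    have c1 : E1.card ≤ 1 := by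
      refine Finset.card_le_one.2 fun a ha b hb => ?_
      rw [hE1, Finset.mem_filter, hmemD] at ha hb
      rcases lt_trichotomy a b with h | h | h
      · have := pk_lt hinf (show 0 < n - b by omega) (show n - b < n - a by omega)
        omega
      · exact h
      · have := pk_lt hinf (show 0 < n - a by omega) (show n - a < n - b by omega)
        omega
    have h1 := Finset.card_le_card hsub
    have h2 := Finset.card_union_le (DA ∪ DB) (E0 ∪ E1)
    have h3 := Finset.card_union_le DA DB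
    have h4 := Finset.card_union_le E0 E1
    omega

end Pool.Agent.Results.MP_04e9b2_nt.SequentialModels

open Pool.Agent.Results.MP_04e9b2_nt.SequentialModels Pool.Agent.N909.TF Pool.Agent.N951.TF

/-- Let `A n` be the event that `n` belongs to a random set adapted to a filtration `ℱ`, and let the
conditional probability of `A (n + 1)` given `ℱ n`, times `log n`, tend to `1` almost surely.  Let
`P_k` be the chosen integer number `k`.  (1) Almost surely the number of `0 < k < n` such that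
`P_k + 2` and `P_{P_m} + 2`, `m = n - k`, are chosen is asymptotic to `n / (log n)²`.
(2) Almost surely every large `n` has such a representation `n = k + m`. -/
theorem Pool.Agent.Results.MP_04e9b2_nt.SequentialModels.result
    {Ω : Type} [mΩ : MeasurableSpace Ω] (μ : Measure Ω) [IsProbabilityMeasure μ]
    (ℱ : Filtration ℕ mΩ) (A : ℕ → Set Ω) (hA : ∀ n, MeasurableSet[ℱ n] (A n))
    (hd : ∀ᵐ ω ∂μ, Tendsto (fun n : ℕ =>
      (μ[(A (n + 1)).indicator (fun _ => (1 : ℝ)) | ℱ n]) ω * Real.log n) atTop (𝓝 1)) :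
    (∀ᵐ ω ∂μ, Tendsto (fun n : ℕ => ((dec {k : ℕ | ω ∈ A k} n).ncard : ℝ) / (n / Real.log n ^ 2))
      atTop (𝓝 1)) ∧
    (∀ᵐ ω ∂μ, ∀ᶠ n : ℕ in atTop, ∃ k m : ℕ, 0 < k ∧ 0 < m ∧ n = k + m ∧
      p {k : ℕ | ω ∈ A k} k + 2 ∈ {k : ℕ | ω ∈ A k} ∧
      p {k : ℕ | ω ∈ A k} (p {k : ℕ | ω ∈ A k} m) + 2 ∈ {k : ℕ | ω ∈ A k}) := by
  classical
  have hpnt := pnt_ae (μ := μ) hA hd
  have lT := index_law (μ := μ) hA hd ruleT (by
    filter_upwards with ω d hd
    filter_upwards with n j hj
    exact lt_scale hd (mem_T.1 hj).2)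
  have lV := index_law (μ := μ) hA hd ruleV (by
    filter_upwards [hpnt] with ω hS d hd
    filter_upwards with n j hj
    exact lt_scale hd ((mem_V (infinite_of_pnt hS)).1 hj).2.1)
  have lA := index_law (μ := μ) hA hd ruleA (by
    filter_upwards [hpnt] with ω hS d hd
    filter_upwards [up_scale hS d hd] with n g j hj
    obtain ⟨-, m, hm, hmn, h1, -⟩ := (mem_A (infinite_of_pnt hS)).1 hj
    rw [← h1]
    exact g m hmn)
  have lB := index_law (μ := μ) hA hd ruleB (by
    filter_upwards [hpnt] with ω hS d hd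
    filter_upwards with n j hj
    obtain ⟨m, hm, hmn, h1, -⟩ := (mem_B (infinite_of_pnt hS)).1 hj
    exact lt_scale hd (by omega))
  have h2 : ∀ᵐ ω ∂μ, Tendsto (fun n : ℕ => ((dec {k : ℕ | ω ∈ A k} n).ncard : ℝ) / (n / Real.log n ^ 2))
      atTop (𝓝 1) := by
    filter_upwards [hpnt, lT, lV, lA, lB] with ω hS lT lV lA lB
    have hinf := infinite_of_pnt hS
    -- the number of j below n with P_j + 2 chosen
    have tT : Tendsto (fun n : ℕ => ((JP A ruleT n ω).card : ℝ) * Real.log n ^ 1 / n) atTop (𝓝 1) := by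
      refine tr lT 0 (by norm_num) 1 ?_
      have h1 : Tendsto (fun n : ℕ => 1 - 1 / (n : ℝ)) atTop (𝓝 (1 - 0)) :=
        tendsto_const_nhds.sub tendsto_one_div_atTop_nhds_zero_nat
      rw [sub_zero] at h1
      refine h1.congr' ?_
      filter_upwards [eventually_gt_atTop 0] with n hn
      have hn0 : (n : ℝ) ≠ 0 := by exact_mod_cast hn.ne'
      have e1 : JJ A ruleT n ω = Finset.Ioo 0 n := by
        ext j
        rw [mem_T, Finset.mem_Ioo]
      rw [e1, Nat.card_Ioo, pow_zero, mul_one, Nat.sub_zero, Nat.cast_sub (by omega), Nat.cast_one]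
      field_simp
    -- chosen j
    have bV : ∀ᶠ n : ℕ in atTop, ((JP A ruleV n ω).card : ℝ) * Real.log n ^ 1 / n ≤ 5 / Real.log n := by
      have hlog := (Real.tendsto_log_atTop.comp tendsto_natCast_atTop_atTop).eventually_ge_atTop (1 : ℝ)
      filter_upwards [lV 1 one_pos, hS 1 one_pos, hlog, eventually_gt_atTop 1] with n g1 g2 g3 g4
      have hn : (1 : ℝ) < n := by exact_mod_cast g4
      have hn0 : (0 : ℝ) < n := by linarith
      have g3' : 1 ≤ Real.log n := g3
      have hL : 0 < Real.log n := by linarith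
      have k1 : ((JJ A ruleV n ω).card : ℝ) ≤ 2 * (n / Real.log n) := by
        have e1 : (JJ A ruleV n ω).card ≤ ({k | ω ∈ A k} ∩ Set.Ioc 0 n).ncard := by
          rw [← Set.ncard_coe_finset]
          apply Set.ncard_le_ncard _ ((Set.finite_Ioc 0 n).subset Set.inter_subset_right)
          intro j hj
          obtain ⟨h1, h2, h3⟩ := (mem_V hinf).1 (Finset.mem_coe.1 hj)
          exact ⟨h3, h1, h2.le⟩
        have e2 : ((JJ A ruleV n ω).card : ℝ) ≤ ({k | ω ∈ A k} ∩ Set.Ioc 0 n).ncard := by exact_mod_cast e1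
        have := (abs_le.1 g2).2
        linarith
      have k2 := (abs_le.1 g1).2
      have k3 : ((JJ A ruleV n ω).card : ℝ) / Real.log n ≤ 2 * (n / Real.log n) / Real.log n :=
        div_le_div_of_nonneg_right k1 hL.le
      have k4 : ((JP A ruleV n ω).card : ℝ) ≤ 2 * (2 * (n / Real.log n) / Real.log n) + n / Real.log n ^ 3 := by
        linarith
      calc ((JP A ruleV n ω).card : ℝ) * Real.log n ^ 1 / n
          ≤ (2 * (2 * (n / Real.log n) / Real.log n) + n / Real.log n ^ 3) * Real.log n ^ 1 / n := by gcongr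
        _ = (4 + 1 / Real.log n) / Real.log n := by
            field_simp
            ring
        _ ≤ (4 + 1) / Real.log n := by
            gcongr
            rw [div_le_one hL]
            exact g3'
        _ = 5 / Real.log n := by norm_num
    have tV : Tendsto (fun n : ℕ => ((JP A ruleV n ω).card : ℝ) * Real.log n ^ 1 / n) atTop (𝓝 0) := by
      have h1 : Tendsto (fun n : ℕ => 5 / Real.log n) atTop (𝓝 0) :=
        (Real.tendsto_log_atTop.comp tendsto_natCast_atTop_atTop).const_div_atTop 5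
      refine tendsto_of_tendsto_of_tendsto_of_le_of_le' tendsto_const_nhds h1 ?_ bV
      filter_upwards [eventually_gt_atTop 1] with n g4
      have hn : (1 : ℝ) < n := by exact_mod_cast g4
      have hL : 0 < Real.log n := Real.log_pos hn
      positivity
    -- case B is negligible
    have jB : Tendsto (fun n : ℕ => ((JJ A ruleB n ω).card : ℝ) * Real.log n ^ 1 / n) atTop (𝓝 0) := by
      refine tendsto_of_tendsto_of_tendsto_of_le_of_le' tendsto_const_nhds tV ?_ ?_
      · filter_upwards [eventually_gt_atTop 1] with n g4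
        have hn : (1 : ℝ) < n := by exact_mod_cast g4
        have hL : 0 < Real.log n := Real.log_pos hn
        positivity
      · filter_upwards [eventually_gt_atTop 1] with n g4
        have hn : (1 : ℝ) < n := by exact_mod_cast g4
        have hL : 0 < Real.log n := Real.log_pos hn
        have : ((JJ A ruleB n ω).card : ℝ) ≤ (JP A ruleV n ω).card := by exact_mod_cast B_le hinf n
        gcongr
    have tB := tr lB 1 (by norm_num) 0 jB
    -- case A
    have jA : Tendsto (fun n : ℕ => ((JJ A ruleA n ω).card : ℝ) * Real.log n ^ 1 / n) atTop (𝓝 1) := by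
      rw [tendsto_order]
      constructor
      · intro a ha
        set ε : ℝ := min ((1 - a) / 4) (1 / 4) with hε
        have hε0 : 0 < ε := by
          rw [hε]
          exact lt_min (by linarith) (by norm_num)
        have hε1 : ε ≤ 1 / 4 := min_le_right _ _
        have hεa : 4 * ε ≤ 1 - a := by
          have : ε ≤ (1 - a) / 4 := min_le_left _ _
          linarith
        obtain ⟨K, hK⟩ := exists_nat_gt (1 / ε)
        have hKr : (0 : ℝ) < K := lt_trans (by positivity) hK
        have hK0 : 0 < K := by exact_mod_cast hKr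
        have hK1 : 1 < K := by
          have h4 : (4 : ℝ) ≤ 1 / ε := by
            rw [le_div_iff₀ hε0]
            linarith
          have : (1 : ℝ) < K := by linarith
          exact_mod_cast this
        have hKe : 1 / (K : ℝ) ≤ ε := by
          rw [div_le_iff₀ hKr]
          rw [div_lt_iff₀ hε0] at hK
          linarith
        -- the shifted argument
        have hNge : ∀ n : ℕ, (1 - ε) * n ≤ ((n - n / K : ℕ) : ℝ) := by
          intro n
          rw [Nat.cast_sub (Nat.div_le_self n K)]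
          have h5 : ((n / K : ℕ) : ℝ) ≤ n / K := Nat.cast_div_le
          have h6 : (n : ℝ) / K ≤ ε * n := by
            calc (n : ℝ) / K = 1 / K * n := by ring
              _ ≤ ε * n := mul_le_mul_of_nonneg_right hKe (Nat.cast_nonneg n)
          linarith
        have hNt : Tendsto (fun n : ℕ => n - n / K) atTop atTop := by
          rw [← tendsto_natCast_atTop_iff (R := ℝ)]
          refine tendsto_atTop_mono hNge ?_
          exact tendsto_natCast_atTop_atTop.const_mul_atTop (by linarith)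
        have h3 := (hNt.eventually (tT.eventually (lt_mem_nhds (show 1 - ε < (1 : ℝ) by linarith))))
        filter_upwards [h3, A_ge hS K hK0, hNt.eventually_gt_atTop 1, eventually_gt_atTop 1] with n g1 g2 g3 g4
        have hn : (1 : ℝ) < n := by exact_mod_cast g4
        have hn0 : (0 : ℝ) < n := by linarith
        have hL : 0 < Real.log n := Real.log_pos hn
        set N : ℕ := n - n / K with hNdef
        have hN1 : (1 : ℝ) < N := by exact_mod_cast g3
        have hN0 : (0 : ℝ) < N := by linarith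
        have hLN : 0 < Real.log N := Real.log_pos hN1
        have hNn : (N : ℝ) ≤ n := by
          have : N ≤ n := Nat.sub_le _ _
          exact_mod_cast this
        have hLL : Real.log N ≤ Real.log n := Real.log_le_log hN0 hNn
        rw [pow_one, lt_div_iff₀ hN0] at g1
        rw [pow_one, lt_div_iff₀ hn0]
        have g2' : ((JP A ruleT N ω).card : ℝ) ≤ (JJ A ruleA n ω).card := by exact_mod_cast g2
        have q1 : (1 - ε) * ((1 - ε) * n) ≤ (1 - ε) * N := mul_le_mul_of_nonneg_left (hNge n) (by linarith)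
        have q2 : ((JP A ruleT N ω).card : ℝ) * Real.log N ≤ (JJ A ruleA n ω).card * Real.log n :=
          mul_le_mul g2' hLL hLN.le (Nat.cast_nonneg _)
        have q3 : a * n ≤ (1 - 4 * ε) * n := mul_le_mul_of_nonneg_right (by linarith) hn0.le
        have q4 : (1 - 4 * ε) * n ≤ (1 - ε) * ((1 - ε) * n) := by
          have : 0 ≤ ε * n := by positivity
          have : 0 ≤ ε * (ε * n) := by positivity
          nlinarith
        linarith
      · intro a ha
        filter_upwards [tT.eventually (gt_mem_nhds ha), eventually_gt_atTop 1] with n g1 g4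
        have hn : (1 : ℝ) < n := by exact_mod_cast g4
        have hn0 : (0 : ℝ) < n := by linarith
        have hL : 0 < Real.log n := Real.log_pos hn
        have : ((JJ A ruleA n ω).card : ℝ) ≤ (JP A ruleT n ω).card := by exact_mod_cast A_le hinf n
        refine lt_of_le_of_lt ?_ g1
        gcongr
    have tA := tr lA 1 (by norm_num) 1 jA
    -- the sum
    have hlog0 := err_tendsto 2 0 zero_lt_one 2
    have lo := tA.add tB
    have up := (tA.add tB).add hlog0
    rw [add_zero] at lo up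
    rw [add_zero] at up
    refine tendsto_of_tendsto_of_tendsto_of_le_of_le' lo up ?_ ?_
    · filter_upwards [dec_card hS, eventually_gt_atTop 1] with n g1 g4
      have hn : (1 : ℝ) < n := by exact_mod_cast g4
      have hn0 : (0 : ℝ) < n := by linarith
      have hL : 0 < Real.log n := Real.log_pos hn
      have k1 : ((JP A ruleA n ω).card : ℝ) + (JP A ruleB n ω).card ≤ (dec {t | ω ∈ A t} n).ncard := by
        exact_mod_cast g1.1
      rw [div_div_eq_mul_div, ← add_div, ← add_mul]
      gcongr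
    · filter_upwards [dec_card hS, eventually_gt_atTop 1] with n g1 g4
      have hn : (1 : ℝ) < n := by exact_mod_cast g4
      have hn0 : (0 : ℝ) < n := by linarith
      have hL : 0 < Real.log n := Real.log_pos hn
      have k1 : ((dec {t | ω ∈ A t} n).ncard : ℝ) ≤ (JP A ruleA n ω).card + (JP A ruleB n ω).card + 2 := by
        exact_mod_cast g1.2
      rw [div_div_eq_mul_div, ← add_div, ← add_mul, ← add_div, ← add_mul, Real.rpow_zero]
      gcongr
      linarith
  refine ⟨h2, ?_⟩
  filter_upwards [h2] with ω hω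
  filter_upwards [hω.eventually (lt_mem_nhds (show (0:ℝ) < 1 by norm_num))] with n g
  have hpos : (dec {k : ℕ | ω ∈ A k} n).ncard ≠ 0 := by
    intro h
    rw [h, Nat.cast_zero, zero_div] at g
    exact lt_irrefl _ g
  obtain ⟨k, k1, k2, k3, k4⟩ := Set.nonempty_of_ncard_ne_zero hpos
  exact ⟨k, n - k, k1, by omega, by omega, k3, k4⟩
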